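import Pool.Agent.H5.Dem.Stmts

/-!
# Module FROB of project DEM: Frobenius reciprocity for characters
-/

set_option autoImplicit false

namespace Pool.Agent.H5.Dem

namespace FROBaux

open scoped Classical

theorem mul_val_smul {M : Type} [AddCommGroup M] (h8 : ∀ m : M, 8 • m = 0) (a b : ZMod 8)
    (m : M) : (a * b).val • m = a.val • b.val • m := by
  rw [smul_smul, ZMod.val_mul]
  have h := Nat.mod_add_div (a.val * b.val) 8
  conv_rhs => rw [← h]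
  rw [add_smul, mul_smul, h8, add_zero]

theorem one_val_smul {M : Type} [AddCommGroup M] (m : M) : (1 : ZMod 8).val • m = m := by
  have : (1 : ZMod 8).val = 1 := by decide
  rw [this, one_smul]

theorem map_sum_prod {A ι : Type} [AddCommGroup A] (ψ : AddChar A ℂ) (s : Finset ι) (f : ι → A) :
    ψ (∑ i ∈ s, f i) = ∏ i ∈ s, ψ (f i) := by
  induction s using Finset.induction_on with
  | empty => simp
  | insert a s ha ih => rw [Finset.sum_insert ha, Finset.prod_insert ha, AddChar.map_add_eq_mul, ih]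

variable {G : Type} [Group G] (U : Subgroup G) {M : Type} [AddCommGroup M] (ρ : U →* Au M)

/-- the function supported on `U` with value `m` at `1` -/
noncomputable def fm (m : M) : Ind U ρ :=
  ⟨fun g => if h : g ∈ U then ρ ⟨g, h⟩ m else 0, by
    intro u g
    by_cases h : g ∈ U
    · have h2 : (u : G) * g ∈ U := U.mul_mem u.2 h
      simp only [dif_pos h, dif_pos h2]
      have : (⟨(u : G) * g, h2⟩ : U) = u * ⟨g, h⟩ := rfl
      rw [this, map_mul]; rfl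
    · have h2 : ¬ (u : G) * g ∈ U := fun h3 => h ((U.mul_mem_cancel_left u.2).mp h3)
      simp only [dif_neg h, dif_neg h2, map_zero]⟩

theorem fm_apply_mem (m : M) {g : G} (h : g ∈ U) : (fm U ρ m).1 g = ρ ⟨g, h⟩ m := by
  unfold fm; simp only [dif_pos h]

theorem fm_apply_not (m : M) {g : G} (h : g ∉ U) : (fm U ρ m).1 g = 0 := by
  unfold fm; simp only [dif_neg h]

theorem fm_add (m m' : M) : fm U ρ (m + m') = fm U ρ m + fm U ρ m' := by
  apply Subtype.ext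
  funext g
  show (fm U ρ (m + m')).1 g = (fm U ρ m).1 g + (fm U ρ m').1 g
  by_cases h : g ∈ U
  · rw [fm_apply_mem U ρ _ h, fm_apply_mem U ρ _ h, fm_apply_mem U ρ _ h, map_add]
  · rw [fm_apply_not U ρ _ h, fm_apply_not U ρ _ h, fm_apply_not U ρ _ h, add_zero]

noncomputable def fmHom : M →+ Ind U ρ := AddMonoidHom.mk' (fm U ρ) (fm_add U ρ)

theorem fm_rho (u : U) (m : M) : fm U ρ (ρ u m) = indAct U ρ u (fm U ρ m) := by
  apply Subtype.ext
  funext g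
  show (fm U ρ (ρ u m)).1 g = (fm U ρ m).1 (g * u)
  by_cases h : g ∈ U
  · have h2 : g * (u : G) ∈ U := U.mul_mem h u.2
    rw [fm_apply_mem U ρ _ h, fm_apply_mem U ρ _ h2]
    have : (⟨g * (u : G), h2⟩ : U) = ⟨g, h⟩ * u := rfl
    rw [this, map_mul]; rfl
  · have h2 : ¬ g * (u : G) ∈ U := fun h3 => h ((U.mul_mem_cancel_right u.2).mp h3)
    rw [fm_apply_not U ρ _ h, fm_apply_not U ρ _ h2]

/-- restriction to a coset -/
noncomputable def res (t : G ⧸ U) (f : Ind U ρ) : Ind U ρ :=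
  ⟨fun g => if ((g⁻¹ : G) : G ⧸ U) = t then f.1 g else 0, by
    intro u g
    have h : (((u * g : G)⁻¹ : G) : G ⧸ U) = ((g⁻¹ : G) : G ⧸ U) := by
      rw [QuotientGroup.eq]
      simp
    simp only [h]
    split_ifs
    · exact f.2 u g
    · rw [map_zero]⟩

theorem res_apply (t : G ⧸ U) (f : Ind U ρ) (g : G) :
    (res U ρ t f).1 g = if ((g⁻¹ : G) : G ⧸ U) = t then f.1 g else 0 := rfl

theorem res_mk (g : G) (f : Ind U ρ) :
    res U ρ (g : G ⧸ U) f = indAct U ρ g (fm U ρ (f.1 g⁻¹)) := by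
  apply Subtype.ext
  funext h
  show (res U ρ (g : G ⧸ U) f).1 h = (fm U ρ (f.1 g⁻¹)).1 (h * g)
  rw [res_apply]
  have key : ((h⁻¹ : G) : G ⧸ U) = (g : G ⧸ U) ↔ h * g ∈ U := by
    rw [QuotientGroup.eq, inv_inv]
  by_cases hh : h * g ∈ U
  · rw [if_pos (key.mpr hh), fm_apply_mem U ρ _ hh, ← f.2]
    show f.1 h = f.1 (h * g * g⁻¹)
    rw [mul_inv_cancel_right]
  · rw [if_neg (fun h1 => hh (key.mp h1)), fm_apply_not U ρ _ hh]

variable [Fintype (G ⧸ U)]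

theorem sum_res (f : Ind U ρ) : ∑ t : G ⧸ U, res U ρ t f = f := by
  apply Subtype.ext
  funext g
  have h : ((∑ t : G ⧸ U, res U ρ t f : Ind U ρ) : G → M) = ∑ t : G ⧸ U, (res U ρ t f).1 := by
    exact AddSubgroup.val_finsetSum _ _ _
  show ((∑ t : G ⧸ U, res U ρ t f : Ind U ρ) : G → M) g = f.1 g
  rw [h, Finset.sum_apply]
  simp only [res_apply]
  rw [Finset.sum_ite_eq]
  simp

variable (χ : G →* (ZMod 8)ˣ)

theorem formula {Ψ : AddChar (Ind U ρ) ℂ}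
    (hΨ : Ψ ∈ JJ (indAct U ρ) χ) (f : Ind U ρ) :
    Ψ f = ∏ t : G ⧸ U, Ψ (fm U ρ ((((χ t.out : (ZMod 8)ˣ) : ZMod 8).val) • (f.1 (t.out)⁻¹))) := by
  conv_lhs => rw [← sum_res U ρ f, map_sum_prod]
  apply Finset.prod_congr rfl
  intro t _
  have h1 : res U ρ t f = res U ρ ((t.out : G) : G ⧸ U) f := by
    rw [QuotientGroup.out_eq']
  rw [h1, res_mk, hΨ]
  have h2 : ∀ (k : ℕ) (m : M), k • fm U ρ m = fm U ρ (k • m) := fun k m =>
    (map_nsmul (fmHom U ρ) k m).symm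
  rw [h2]

/-- the value of the induced character on a coset -/
noncomputable def Fval (ψ : AddChar M ℂ) (f : Ind U ρ) (g : G) : ℂ :=
  ψ ((((χ g : (ZMod 8)ˣ) : ZMod 8).val) • f.1 g⁻¹)

omit [Fintype (G ⧸ U)] in
theorem Fval_mul (h8 : ∀ m : M, 8 • m = 0) {ψ : AddChar M ℂ}
    (hψ : ψ ∈ JJ ρ (χ.comp U.subtype)) (f : Ind U ρ) (g : G) (u : U) :
    Fval U ρ χ ψ f (g * u) = Fval U ρ χ ψ f g := by
  unfold Fval
  have h1 : (g * (u : G))⁻¹ = ((u⁻¹ : U) : G) * g⁻¹ := by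
    rw [mul_inv_rev]; rfl
  rw [h1, f.2]
  have h2 : ∀ (k : ℕ) (v : U) (m : M), k • ρ v m = ρ v (k • m) := fun k v m =>
    (map_nsmul (ρ v) k m).symm
  rw [h2, hψ]
  rw [← mul_val_smul h8]
  rw [← Units.val_mul, MonoidHom.comp_apply, Subgroup.coe_subtype, ← map_mul]
  have h3 : χ (((u⁻¹ : U) : G) * (g * (u : G))) = χ g := by
    rw [map_mul, map_mul, Subgroup.coe_inv, map_inv]
    rw [mul_comm (χ g), inv_mul_cancel_left]
  rw [h3]

theorem Fval_eq (h8 : ∀ m : M, 8 • m = 0) {ψ : AddChar M ℂ}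
    (hψ : ψ ∈ JJ ρ (χ.comp U.subtype)) (f : Ind U ρ) {g g' : G}
    (h : (g : G ⧸ U) = (g' : G ⧸ U)) : Fval U ρ χ ψ f g = Fval U ρ χ ψ f g' := by
  rw [QuotientGroup.eq] at h
  have h1 := Fval_mul U ρ χ h8 hψ f g ⟨g⁻¹ * g', h⟩
  rw [← h1]
  have h2 : g * (((⟨g⁻¹ * g', h⟩ : U)) : G) = g' := mul_inv_cancel_left g g'
  rw [h2]

/-- the induced character -/
noncomputable def indChar (ψ : AddChar M ℂ) : AddChar (Ind U ρ) ℂ where
  toFun f := ∏ t : G ⧸ U, Fval U ρ χ ψ f t.out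
  map_zero_eq_one' := by
    apply Finset.prod_eq_one
    intro t _
    unfold Fval
    have : ((0 : Ind U ρ) : G → M) (t.out)⁻¹ = 0 := rfl
    rw [this, smul_zero, AddChar.map_zero_eq_one]
  map_add_eq_mul' f f' := by
    rw [← Finset.prod_mul_distrib]
    apply Finset.prod_congr rfl
    intro t _
    unfold Fval
    have : ((f + f' : Ind U ρ) : G → M) (t.out)⁻¹ = f.1 (t.out)⁻¹ + f'.1 (t.out)⁻¹ := rfl
    rw [this, smul_add, AddChar.map_add_eq_mul]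

theorem indChar_apply (ψ : AddChar M ℂ) (f : Ind U ρ) :
    indChar U ρ χ ψ f = ∏ t : G ⧸ U, Fval U ρ χ ψ f t.out := rfl

theorem indChar_mem (h8 : ∀ m : M, 8 • m = 0) {ψ : AddChar M ℂ}
    (hψ : ψ ∈ JJ ρ (χ.comp U.subtype)) : indChar U ρ χ ψ ∈ JJ (indAct U ρ) χ := by
  intro h f
  rw [indChar_apply, indChar_apply]
  rw [← Equiv.prod_comp (MulAction.toPerm (h⁻¹ : G) : Equiv.Perm (G ⧸ U))
    (fun t => Fval U ρ χ ψ ((((χ h : (ZMod 8)ˣ) : ZMod 8).val) • f) t.out)]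
  apply Finset.prod_congr rfl
  intro t _
  have h1 : ((MulAction.toPerm (h⁻¹ : G) : Equiv.Perm (G ⧸ U)) t).out =
      ((MulAction.toPerm (h⁻¹ : G) : Equiv.Perm (G ⧸ U)) t).out := rfl
  have h2 : (((((MulAction.toPerm (h⁻¹ : G) : Equiv.Perm (G ⧸ U)) t).out : G)) : G ⧸ U) =
      ((h⁻¹ * t.out : G) : G ⧸ U) := by
    rw [QuotientGroup.out_eq', MulAction.toPerm_apply]
    conv_lhs => rw [← QuotientGroup.out_eq' t]
    rfl
  rw [Fval_eq U ρ χ h8 hψ _ h2]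
  unfold Fval
  have h3 : ((indAct U ρ h f : Ind U ρ) : G → M) (t.out)⁻¹ = f.1 ((t.out)⁻¹ * h) := rfl
  have h4 : (((((χ h : (ZMod 8)ˣ) : ZMod 8).val) • f : Ind U ρ) : G → M) (h⁻¹ * t.out)⁻¹ =
      (((χ h : (ZMod 8)ˣ) : ZMod 8).val) • f.1 ((h⁻¹ * t.out)⁻¹) := rfl
  rw [h3, h4, ← mul_val_smul h8, ← Units.val_mul, ← map_mul]
  have h5 : χ (h⁻¹ * t.out * h) = χ t.out := by
    rw [map_mul, map_mul, map_inv, mul_comm, mul_inv_cancel_left]
  rw [h5, mul_inv_rev, inv_inv]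

theorem indChar_fm (h8 : ∀ m : M, 8 • m = 0) {ψ : AddChar M ℂ}
    (hψ : ψ ∈ JJ ρ (χ.comp U.subtype)) (m : M) : indChar U ρ χ ψ (fm U ρ m) = ψ m := by
  rw [indChar_apply, Finset.prod_eq_single ((1 : G) : G ⧸ U)]
  · rw [Fval_eq U ρ χ h8 hψ (g' := 1) _ (by rw [QuotientGroup.out_eq'])]
    unfold Fval
    have h1 : (1 : G)⁻¹ ∈ U := by rw [inv_one]; exact U.one_mem
    rw [fm_apply_mem U ρ m h1, map_one, Units.val_one, one_val_smul]
    have h2 : (⟨(1 : G)⁻¹, h1⟩ : U) = 1 := by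
      apply Subtype.ext
      show (1 : G)⁻¹ = 1
      exact inv_one
    rw [h2, map_one]
    rfl
  · intro t _ ht
    unfold Fval
    have h1 : (t.out)⁻¹ ∉ U := by
      intro h
      apply ht
      rw [← QuotientGroup.out_eq' t, QuotientGroup.eq]
      rw [mul_one]
      exact h
    rw [fm_apply_not U ρ m h1, smul_zero, AddChar.map_zero_eq_one]
  · intro h
    exact absurd (Finset.mem_univ _) h

/-- restriction of characters -/
noncomputable def resChar (Ψ : AddChar (Ind U ρ) ℂ) : AddChar M ℂ :=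
  Ψ.compAddMonoidHom (fmHom U ρ)

omit [Fintype (G ⧸ U)] in
theorem resChar_apply (Ψ : AddChar (Ind U ρ) ℂ) (m : M) :
    resChar U ρ Ψ m = Ψ (fm U ρ m) := rfl

omit [Fintype (G ⧸ U)] in
theorem resChar_mem {Ψ : AddChar (Ind U ρ) ℂ} (hΨ : Ψ ∈ JJ (indAct U ρ) χ) :
    resChar U ρ Ψ ∈ JJ ρ (χ.comp U.subtype) := by
  intro u m
  rw [resChar_apply, resChar_apply, fm_rho, hΨ]
  have h2 : ∀ (k : ℕ) (m : M), k • fm U ρ m = fm U ρ (k • m) := fun k m =>
    (map_nsmul (fmHom U ρ) k m).symm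
  rw [h2]
  rfl

end FROBaux

open FROBaux in
theorem frob : FROBStmt := by
  intro G _ U hU M _ _ ρ χ h8
  classical
  have : Fintype (G ⧸ U) := Subgroup.fintypeOfIndexNeZero hU
  apply Nat.card_congr
  refine ⟨fun Ψ => ⟨resChar U ρ Ψ.1, resChar_mem U ρ χ Ψ.2⟩,
    fun ψ => ⟨indChar U ρ χ ψ.1, indChar_mem U ρ χ h8 ψ.2⟩, ?_, ?_⟩
  · rintro ⟨Ψ, hΨ⟩
    apply Subtype.ext
    apply DFunLike.ext
    intro f
    show indChar U ρ χ (resChar U ρ Ψ) f = Ψ f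
    rw [formula U ρ χ hΨ f, indChar_apply]
    rfl
  · rintro ⟨ψ, hψ⟩
    apply Subtype.ext
    apply DFunLike.ext
    intro m
    show resChar U ρ (indChar U ρ χ ψ) m = ψ m
    rw [resChar_apply, indChar_fm U ρ χ h8 hψ]

end Pool.Agent.H5.Dem
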